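import Mathlib
import Pool.Agent.Y381.Prim.Limit

/-!
# Every partial Latin square embeds in a quasigroup with primitive autoparatopism group

Let `K` be an infinite type. Every partial Latin square on `K` (in particular every quasigroup on
`K`) embeds in the Latin square of a quasigroup operation on `K` whose autoparatopism group acts
primitively on the cells, which is isotopic to no Moufang loop (so to no group and to no Paige
loop), and whose finite subsquares with at least two rows have the same orders as those of the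
partial Latin square. Hence on every infinite type there is a family of such quasigroups, indexed
by the sets of prime numbers, no two of which are paratopic.

The Latin square is the union of a chain of partial Latin squares (written as nets: points of three
colours, and cells). In each step all undefined pairs are completed freely, and then copies of the
whole partial square are glued along the members of a family of closed partial isomorphisms, which
contains all finite ones and the extensions of the members of the previous family.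
-/

set_option autoImplicit false

universe u v

namespace Pool.Agent.Results.MP_b62fd5_al.UniversalPrimitive

/-- `m` is a quasigroup operation: each of the equations `a x = b` and `y a = b` has exactly one
solution. -/
def IsQuasigroup {T : Type*} (m : T → T → T) : Prop :=
  ∀ a b : T, (∃! x, m a x = b) ∧ (∃! y, m y a = b)

/-- The Latin square of `m`: the set of the cells `(x, y, m x y)`. -/
def LatinSquare {T : Type*} (m : T → T → T) : Set (Fin 3 → T) := {c | c 2 = m (c 0) (c 1)}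

/-- Isotopic operations. -/
def Isotopic {T S : Type*} (m : T → T → T) (n : S → S → S) : Prop :=
  ∃ α β γ : T ≃ S, ∀ x y, γ (m x y) = n (α x) (β y)

/-- A paratopism: a bijection is applied to each coordinate, then the three coordinates are
permuted. -/
def IsParatopism {T : Type*} (p : (Fin 3 → T) → (Fin 3 → T)) : Prop :=
  ∃ (θ : Fin 3 → Equiv.Perm T) (σ : Equiv.Perm (Fin 3)), ∀ c i, p c i = θ (σ i) (c (σ i))

/-- An autoparatopism: a paratopism that maps the Latin square onto itself. -/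
def IsAutoparatopism {T : Type*} (m : T → T → T) (p : (Fin 3 → T) → (Fin 3 → T)) : Prop :=
  IsParatopism p ∧ p '' LatinSquare m = LatinSquare m

/-- The autoparatopism group acts primitively on the cells: it is transitive, and the only
equivalence relations on the cells that it preserves are equality and the full relation. -/
def PrimitiveOnCells {T : Type*} (m : T → T → T) : Prop :=
  (∀ c ∈ LatinSquare m, ∀ d ∈ LatinSquare m, ∃ p, IsAutoparatopism m p ∧ p c = d) ∧
  ∀ r : Setoid (LatinSquare m),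
    (∀ p, IsAutoparatopism m p → ∀ c c' d d' : LatinSquare m, p c = d → p c' = d' →
      r c c' → r d d') → r = ⊥ ∨ r = ⊤

/-! ### Partial Latin squares -/

/-- A partial Latin square: a set of cells (row, column, symbol), any two coordinates of a cell
determine the cell. -/
def IsPartialLatin {X : Type*} (L : Set (Fin 3 → X)) : Prop :=
  ∀ c ∈ L, ∀ d ∈ L, ∀ i j : Fin 3, i ≠ j → c i = d i → c j = d j → c = d

/-- The partial Latin square `L` has a subsquare of order `k`: a set of `k` rows, a set of `k`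
columns and a set of `k` symbols such that any two members of two different ones of these sets lie
in a cell of `L` whose third coordinate is in the third set. -/
def HasSubsquare {X : Type*} (L : Set (Fin 3 → X)) (k : ℕ) : Prop :=
  ∃ A : Fin 3 → Finset X, (∀ i, (A i).card = k) ∧ ∀ i j : Fin 3, i ≠ j → ∀ a ∈ A i, ∀ b ∈ A j,
    ∃ c ∈ L, c i = a ∧ c j = b ∧ ∀ l, c l ∈ A l

/-- Paratopic operations: some paratopism maps the Latin square of one onto the Latin square of the
other. -/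
def Paratopic {T : Type*} (m n : T → T → T) : Prop :=
  ∃ p, IsParatopism p ∧ p '' LatinSquare m = LatinSquare n

/-- Moufang loops: quasigroups with a neutral element that satisfy `x(y(xz)) = ((xy)x)z`. -/
def IsMoufangLoop {M : Type*} (n : M → M → M) : Prop :=
  IsQuasigroup n ∧ (∃ e, ∀ x, n e x = x ∧ n x e = x) ∧
    ∀ x y z, n x (n y (n x z)) = n (n (n x y) x) z

/-! ### Paige loops -/

/-- Zorn vector matrices over `F`: the split octonion algebra. -/
@[ext] structure Zorn (F : Type u) where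
  a : F
  b : F
  x : Fin 3 → F
  y : Fin 3 → F

section zorn

variable {F : Type u} [Field F]

/-- The product of the split octonion algebra. -/
def Zorn.mul (s t : Zorn F) : Zorn F where
  a := s.a * t.a + s.x ⬝ᵥ t.y
  b := s.b * t.b + s.y ⬝ᵥ t.x
  x := s.a • t.x + t.b • s.x - crossProduct s.y t.y
  y := t.a • s.y + s.b • t.y + crossProduct s.x t.x

/-- The norm of the split octonion algebra. -/
def Zorn.norm (s : Zorn F) : F := s.a * s.b - s.x ⬝ᵥ s.y

/-- The negative of an element. -/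
def Zorn.neg (s : Zorn F) : Zorn F := ⟨-s.a, -s.b, -s.x, -s.y⟩

theorem Zorn.norm_mul (s t : Zorn F) : (s.mul t).norm = s.norm * t.norm := by
  simp only [Zorn.mul, Zorn.norm, cross_apply, dotProduct, Fin.sum_univ_three,
    Pi.add_apply, Pi.sub_apply, Pi.smul_apply, smul_eq_mul, Matrix.cons_val_zero,
    Matrix.cons_val_one, Matrix.cons_val]
  ring

theorem Zorn.neg_mul (s t : Zorn F) : s.neg.mul t = (s.mul t).neg := by
  apply Zorn.ext
  · simp [Zorn.mul, Zorn.neg]; ring
  · simp [Zorn.mul, Zorn.neg]; ring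
  · ext i
    fin_cases i <;> simp [Zorn.mul, Zorn.neg, cross_apply] <;> ring
  · ext i
    fin_cases i <;> simp [Zorn.mul, Zorn.neg, cross_apply] <;> ring

theorem Zorn.mul_neg (s t : Zorn F) : s.mul t.neg = (s.mul t).neg := by
  apply Zorn.ext
  · simp [Zorn.mul, Zorn.neg]; ring
  · simp [Zorn.mul, Zorn.neg]; ring
  · ext i
    fin_cases i <;> simp [Zorn.mul, Zorn.neg, cross_apply] <;> ring
  · ext i
    fin_cases i <;> simp [Zorn.mul, Zorn.neg, cross_apply] <;> ring

theorem Zorn.neg_neg (s : Zorn F) : s.neg.neg = s := by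
  ext i <;> simp [Zorn.neg]

variable (F) in
/-- The elements of norm one. -/
def NormOne : Type u := {s : Zorn F // s.norm = 1}

variable (F) in
/-- Elements of norm one are identified with their negatives. -/
def signSetoid : Setoid (NormOne F) where
  r s t := s.1 = t.1 ∨ s.1 = t.1.neg
  iseqv := by
    refine ⟨fun s => Or.inl rfl, ?_, ?_⟩
    · rintro s t (h | h)
      · exact Or.inl h.symm
      · exact Or.inr (by rw [h, Zorn.neg_neg])
    · rintro s t w (h | h) (k | k)
      · exact Or.inl (h.trans k)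
      · exact Or.inr (h.trans k)
      · exact Or.inr (by rw [h, k])
      · exact Or.inl (by rw [h, k, Zorn.neg_neg])

variable (F) in
/-- The Paige loop of `F` (for a finite field `F`): the elements of norm one of the split octonion
algebra modulo the centre. -/
def Paige : Type u := Quotient (signSetoid F)

variable (F) in
/-- The operation of the Paige loop. -/
def paigeMul : Paige F → Paige F → Paige F :=
  Quotient.map₂ (sa := signSetoid F) (sb := signSetoid F) (sc := signSetoid F)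
    (fun s t => ⟨s.1.mul t.1, by rw [Zorn.norm_mul, s.2, t.2, one_mul]⟩) (by
      rintro ⟨s, hs⟩ ⟨s', hs'⟩ h ⟨t, ht⟩ ⟨t', ht'⟩ k
      change s = s' ∨ s = s'.neg at h
      change t = t' ∨ t = t'.neg at k
      change s.mul t = s'.mul t' ∨ s.mul t = (s'.mul t').neg
      rcases h with rfl | rfl <;> rcases k with rfl | rfl
      · exact Or.inl rfl
      · exact Or.inr (Zorn.mul_neg _ _)
      · exact Or.inr (Zorn.neg_mul _ _)
      · exact Or.inl (by rw [Zorn.mul_neg, Zorn.neg_mul, Zorn.neg_neg]))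

end zorn

open Pool.Agent.Y381.Prim

/-! ### The first net -/

section basenet

variable {K : Type u}

theorem three (i : ZMod 3) : i + 1 + 1 + 1 = i := by revert i; decide
theorem n1 (i : ZMod 3) : i ≠ i + 1 := by revert i; decide
theorem n2 (i : ZMod 3) : i ≠ i + 1 + 1 := by revert i; decide

/-- The net of a partial Latin square with points of bounded level. -/
def netOf (D : Set (ZMod 3 → K × ℕ)) (hD : IsPartialLatin (X := K × ℕ) D) (M : ℕ)
    (hM : ∀ c ∈ D, ∀ i, (c i).2 ≤ M) : Net K where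
  P := {x | x.2.2 ≤ M}
  lev := ⟨M, fun _ hx => hx⟩
  cell := fun x y z => ∃ i : ZMod 3, ∃ c ∈ D, x = (i, c i) ∧ y = (i + 1, c (i + 1)) ∧
    z = (i + 1 + 1, c (i + 1 + 1))
  mem := by
    rintro x y z ⟨i, c, hc, rfl, _, _⟩
    exact hM c hc i
  col := by
    rintro x y z ⟨i, c, hc, rfl, rfl, _⟩
    rfl
  rot := by
    rintro x y z ⟨i, c, hc, rfl, rfl, rfl⟩
    refine ⟨i + 1, c, hc, rfl, rfl, ?_⟩
    rw [three]
  uniq := by
    rintro x y z z' ⟨i, c, hc, rfl, rfl, rfl⟩ ⟨j, d, hd, h1, h2, rfl⟩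
    have e1 : i = j := congrArg Prod.fst h1
    subst e1
    have e2 : c i = d i := congrArg Prod.snd h1
    have e3 : c (i + 1) = d (i + 1) := congrArg Prod.snd h2
    have e4 := hD c hc d hd i (i + (1 : ZMod 3)) (n1 i) e2 e3
    rw [e4]

/-- The eight additional cells (row, column, symbol). -/
def base8 : List (Fin 3 → ℕ) :=
  [![0, 0, 0], ![1, 1, 0], ![0, 1, 1], ![2, 0, 1], ![0, 2, 2], ![1, 3, 2], ![0, 3, 3], ![2, 2, 4]]

theorem base8_PLS : ∀ c ∈ base8, ∀ d ∈ base8, ∀ i j : Fin 3, i ≠ j → c i = d i → c j = d j →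
    c = d := by decide

theorem base8_le : ∀ c ∈ base8, ∀ i : Fin 3, c i ≤ 4 := by decide

/-- The eight cells contain no subsquare with two rows. -/
theorem base8_no : ∀ a ∈ base8, ∀ b ∈ base8, a 1 = b 1 → a 0 ≠ b 0 →
    ∀ c ∈ base8, c 0 = b 0 → c 2 = a 2 → ∀ d ∈ base8, d 0 = a 0 → d 2 = b 2 → False := by
  decide

/-- The disjoint union of a partial Latin square and the eight cells. -/
def DD (k₀ : K) (L : Set (Fin 3 → K)) : Set (ZMod 3 → K × ℕ) :=
  {c | (∃ d ∈ L, c = fun i => (d i, 0)) ∨ ∃ t ∈ base8, c = fun i => (k₀, t i + 1)}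

theorem DD_PLS (k₀ : K) {L : Set (Fin 3 → K)} (hL : IsPartialLatin L) :
    IsPartialLatin (X := K × ℕ) (DD k₀ L) := by
  rintro _ (⟨c, hc, rfl⟩ | ⟨s, hs, rfl⟩) _ (⟨d, hd, rfl⟩ | ⟨t, ht, rfl⟩) i j hij h1 h2
  · have e := hL c hc d hd i j hij (congrArg Prod.fst h1) (congrArg Prod.fst h2)
    rw [e]
  · have : 0 = t i + 1 := congrArg Prod.snd h1
    omega
  · have : s i + 1 = 0 := congrArg Prod.snd h1
    omega
  · have e1 : s i + 1 = t i + 1 := congrArg Prod.snd h1
    have e2 : s j + 1 = t j + 1 := congrArg Prod.snd h2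
    have e := base8_PLS s hs t ht i j hij (by omega) (by omega)
    rw [e]

theorem DD_le (k₀ : K) (L : Set (Fin 3 → K)) : ∀ c ∈ DD k₀ L, ∀ i, (c i).2 ≤ 5 := by
  rintro _ (⟨c, hc, rfl⟩ | ⟨s, hs, rfl⟩) i
  · exact Nat.zero_le _
  · have := base8_le s hs i
    change s i + 1 ≤ 5
    omega

/-- The first net. -/
def base (k₀ : K) {L : Set (Fin 3 → K)} (hL : IsPartialLatin L) : Net K :=
  netOf (DD k₀ L) (DD_PLS k₀ hL) 5 (DD_le k₀ L)

end basenet

section final

variable {K : Type u} [Infinite K] {N₀ : Net K}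

/-- Numbering of the points of each colour. -/
theorem exists_zeta (h0 : ∀ (i : ZMod 3) (x : K), ((i, (x, 0)) : U K) ∈ N₀.P) :
    Nonempty (∀ i : ZMod 3, K ≃ {x : U K // x ∈ T N₀ ∧ x.1 = i}) := by
  have h : ∀ i : ZMod 3, Nonempty (K ≃ {x : U K // x ∈ T N₀ ∧ x.1 = i}) := by
    intro i
    rw [← Cardinal.eq]
    refine le_antisymm ?_ ?_
    · refine Cardinal.mk_le_of_injective
        (f := fun x : K => (⟨(i, (x, 0)), ⟨0, h0 i x⟩, rfl⟩ : {x : U K // x ∈ T N₀ ∧ x.1 = i})) ?_
      intro x y hxy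
      exact congrArg (fun t : {x : U K // x ∈ T N₀ ∧ x.1 = i} => t.1.2.1) hxy
    · rw [← card_U (K := K)]
      exact Cardinal.mk_le_of_injective Subtype.val_injective
  exact ⟨fun i => Classical.choice (h i)⟩

variable (ζ : ∀ i : ZMod 3, K ≃ {x : U K // x ∈ T N₀ ∧ x.1 = i})

/-- The points of a triple. -/
def Z (c : ZMod 3 → K) (i : ZMod 3) : U K := (ζ i (c i)).1

theorem Z_col (c : ZMod 3 → K) (i : ZMod 3) : (Z ζ c i).1 = i := (ζ i (c i)).2.2
theorem Z_mem (c : ZMod 3 → K) (i : ZMod 3) : Z ζ c i ∈ T N₀ := (ζ i (c i)).2.1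

theorem Z_inj {c d : ZMod 3 → K} {i : ZMod 3} (h : Z ζ c i = Z ζ d i) : c i = d i :=
  (ζ i).injective (Subtype.ext h)

theorem exists_third (a b : K) : ∃ n : K, cellT N₀ (ζ 0 a).1 (ζ 1 b).1 (ζ 2 n).1 := by
  obtain ⟨z, hz⟩ := cellT_complete (ζ 0 a).2.1 (ζ 1 b).2.1 (by
    rw [(ζ 0 a).2.2, (ζ 1 b).2.2]; rfl)
  have hz2 : z ∈ T N₀ := cellT_mem (cellT_rot (cellT_rot hz))
  have hz3 : z.1 = 2 := by
    rw [cellT_col (cellT_rot hz), (ζ 1 b).2.2]; rfl
  refine ⟨(ζ 2).symm ⟨z, hz2, hz3⟩, ?_⟩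
  rw [Equiv.apply_symm_apply]
  exact hz

/-- The quasigroup operation. -/
noncomputable def op (a b : K) : K := Classical.choose (exists_third ζ a b)

theorem op_cell (a b : K) : cellT N₀ (ζ 0 a).1 (ζ 1 b).1 (ζ 2 (op ζ a b)).1 :=
  Classical.choose_spec (exists_third ζ a b)

theorem op_iff (a b c : K) :
    op ζ a b = c ↔ cellT N₀ (ζ 0 a).1 (ζ 1 b).1 (ζ 2 c).1 := by
  constructor
  · rintro rfl
    exact op_cell ζ a b
  · intro h
    exact (ζ 2).injective (Subtype.ext (cellT_uniq (op_cell ζ a b) h))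

theorem op_quasigroup : IsQuasigroup (op ζ) := by
  intro a b
  constructor
  · obtain ⟨z, hz⟩ := cellT_complete (N₀ := N₀) (ζ 2 b).2.1 (ζ 0 a).2.1 (by
      rw [(ζ 0 a).2.2, (ζ 2 b).2.2]; rfl)
    have hz2 : z ∈ T N₀ := cellT_mem (cellT_rot (cellT_rot hz))
    have hz3 : z.1 = 1 := by
      rw [cellT_col (cellT_rot hz), (ζ 0 a).2.2]; rfl
    refine ⟨(ζ 1).symm ⟨z, hz2, hz3⟩, ?_, ?_⟩
    · change op ζ a _ = b
      rw [op_iff, Equiv.apply_symm_apply]
      exact cellT_rot hz
    · intro y hy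
      change op ζ a y = b at hy
      rw [op_iff] at hy
      rw [Equiv.eq_symm_apply]
      exact Subtype.ext (cellT_uniq (cellT_rot (cellT_rot hy)) hz)
  · obtain ⟨z, hz⟩ := cellT_complete (N₀ := N₀) (ζ 1 a).2.1 (ζ 2 b).2.1 (by
      rw [(ζ 1 a).2.2, (ζ 2 b).2.2]; rfl)
    have hz2 : z ∈ T N₀ := cellT_mem (cellT_rot (cellT_rot hz))
    have hz3 : z.1 = 0 := by
      rw [cellT_col (cellT_rot hz), (ζ 2 b).2.2]; rfl
    refine ⟨(ζ 0).symm ⟨z, hz2, hz3⟩, ?_, ?_⟩
    · change op ζ _ a = b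
      rw [op_iff, Equiv.apply_symm_apply]
      exact cellT_rot (cellT_rot hz)
    · intro y hy
      change op ζ y a = b at hy
      rw [op_iff] at hy
      rw [Equiv.eq_symm_apply]
      exact Subtype.ext (cellT_uniq (cellT_rot hy) hz)

/-! ### Not isotopic to Moufang loops -/

/-- The closure condition. -/
theorem moufang_closure {M : Type*} {n : M → M → M} (h : IsMoufangLoop n) (a b : M) :
    ∃ c, ∀ y y', n b y' = n a y → n c y = n a y' := by
  obtain ⟨hq, ⟨e, he⟩, hm⟩ := h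
  obtain ⟨b', hb', _⟩ := (hq b e).1
  -- `b (b' y) = y`
  have key : ∀ y, n b (n b' y) = y := by
    intro y
    obtain ⟨z, hz, _⟩ := (hq b y).1
    have h1 := hm b b' z
    rw [hb', (he b).1] at h1
    change n b z = y at hz
    rw [hz] at h1
    exact h1
  have key2 : ∀ y, n b' (n b y) = y := by
    intro y
    have h1 := key (n b y)
    exact ((hq b (n b y)).1).unique h1 rfl
  refine ⟨n (n a b') a, fun y y' hy => ?_⟩
  rw [← hm, ← hy, key2]

theorem not_isotopic_moufang (k₀ : K) (hb : ∀ t ∈ base8, cellT N₀ ((0, (k₀, t 0 + 1)) : U K)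
    (1, (k₀, t 1 + 1)) (2, (k₀, t 2 + 1))) {M : Type*} {n : M → M → M} (h : IsMoufangLoop n) :
    ¬ Isotopic (op ζ) n := by
  rintro ⟨α, β, γ, hab⟩
  -- transport the closure condition
  have clo : ∀ a b : K, ∃ c, ∀ y y', op ζ b y' = op ζ a y → op ζ c y = op ζ a y' := by
    intro a b
    obtain ⟨c, hc⟩ := moufang_closure h (α a) (α b)
    refine ⟨α.symm c, fun y y' hy => γ.injective ?_⟩
    rw [hab, hab, Equiv.apply_symm_apply]
    apply hc
    rw [← hab, ← hab, hy]
  -- numbers of the points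
  have num : ∀ {i : ZMod 3} {x : U K} (hx : x ∈ T N₀) (hi : x.1 = i),
      ∃ k, (ζ i k).1 = x := by
    intro i x hx hi
    exact ⟨(ζ i).symm ⟨x, hx, hi⟩, by rw [Equiv.apply_symm_apply]⟩
  have c1 : cellT N₀ ((0, (k₀, 1)) : U K) (1, (k₀, 1)) (2, (k₀, 1)) := hb ![0, 0, 0] (by decide)
  have c2 : cellT N₀ ((0, (k₀, 2)) : U K) (1, (k₀, 2)) (2, (k₀, 1)) := hb ![1, 1, 0] (by decide)
  have c3 : cellT N₀ ((0, (k₀, 1)) : U K) (1, (k₀, 2)) (2, (k₀, 2)) := hb ![0, 1, 1] (by decide)
  have c4 : cellT N₀ ((0, (k₀, 3)) : U K) (1, (k₀, 1)) (2, (k₀, 2)) := hb ![2, 0, 1] (by decide)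
  have c5 : cellT N₀ ((0, (k₀, 1)) : U K) (1, (k₀, 3)) (2, (k₀, 3)) := hb ![0, 2, 2] (by decide)
  have c6 : cellT N₀ ((0, (k₀, 2)) : U K) (1, (k₀, 4)) (2, (k₀, 3)) := hb ![1, 3, 2] (by decide)
  have c7 : cellT N₀ ((0, (k₀, 1)) : U K) (1, (k₀, 4)) (2, (k₀, 4)) := hb ![0, 3, 3] (by decide)
  have c8 : cellT N₀ ((0, (k₀, 3)) : U K) (1, (k₀, 3)) (2, (k₀, 5)) := hb ![2, 2, 4] (by decide)
  obtain ⟨a, ha⟩ := num (i := 0) (cellT_mem c1) rfl
  obtain ⟨b, hb⟩ := num (i := 0) (cellT_mem c2) rfl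
  obtain ⟨c, hc⟩ := num (i := 0) (cellT_mem c4) rfl
  obtain ⟨y0, hy0⟩ := num (i := 1) (cellT_mem (cellT_rot c1)) rfl
  obtain ⟨y1, hy1⟩ := num (i := 1) (cellT_mem (cellT_rot c2)) rfl
  obtain ⟨y2, hy2⟩ := num (i := 1) (cellT_mem (cellT_rot c5)) rfl
  obtain ⟨y3, hy3⟩ := num (i := 1) (cellT_mem (cellT_rot c6)) rfl
  obtain ⟨s0, hs0⟩ := num (i := 2) (cellT_mem (cellT_rot (cellT_rot c1))) rfl
  obtain ⟨s1, hs1⟩ := num (i := 2) (cellT_mem (cellT_rot (cellT_rot c3))) rfl
  obtain ⟨s2, hs2⟩ := num (i := 2) (cellT_mem (cellT_rot (cellT_rot c5))) rfl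
  obtain ⟨s3, hs3⟩ := num (i := 2) (cellT_mem (cellT_rot (cellT_rot c7))) rfl
  obtain ⟨s4, hs4⟩ := num (i := 2) (cellT_mem (cellT_rot (cellT_rot c8))) rfl
  have d1 : op ζ a y0 = s0 := by rw [op_iff, ha, hy0, hs0]; exact c1
  have d2 : op ζ b y1 = s0 := by rw [op_iff, hb, hy1, hs0]; exact c2
  have d3 : op ζ a y1 = s1 := by rw [op_iff, ha, hy1, hs1]; exact c3
  have d4 : op ζ c y0 = s1 := by rw [op_iff, hc, hy0, hs1]; exact c4
  have d5 : op ζ a y2 = s2 := by rw [op_iff, ha, hy2, hs2]; exact c5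
  have d6 : op ζ b y3 = s2 := by rw [op_iff, hb, hy3, hs2]; exact c6
  have d7 : op ζ a y3 = s3 := by rw [op_iff, ha, hy3, hs3]; exact c7
  have d8 : op ζ c y2 = s4 := by rw [op_iff, hc, hy2, hs4]; exact c8
  obtain ⟨c', hc'⟩ := clo a b
  have g1 := hc' y0 y1 (d2.trans d1.symm)
  rw [d3] at g1
  have g2 : c' = c := ((op_quasigroup ζ y0 s1).2).unique g1 d4
  have g3 := hc' y2 y3 (d6.trans d5.symm)
  rw [g2, d8, d7] at g3
  rw [g3, hs3] at hs4
  have h45 : (4 : ℕ) = 5 := congrArg (fun p : U K => p.2.2) hs4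
  omega

theorem group_moufang {G : Type*} [Group G] : IsMoufangLoop (fun x y : G => x * y) := by
  refine ⟨?_, ⟨1, fun x => ⟨one_mul x, mul_one x⟩⟩, ?_⟩
  · intro a b
    refine ⟨⟨a⁻¹ * b, by simp, ?_⟩, ⟨b * a⁻¹, by simp, ?_⟩⟩
    · rintro y rfl
      simp
    · rintro y rfl
      simp
  · intro x y z
    simp [mul_assoc]

omit [Infinite K] in
theorem not_isotopic_paige [Infinite K] {m : K → K → K} {F : Type*} [Field F] [Finite F] :
    ¬ Isotopic m (paigeMul F) := by
  rintro ⟨α, _, _, _⟩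
  have h1 : Finite (Zorn F) := by
    refine Finite.of_injective (β := F × F × (Fin 3 → F) × (Fin 3 → F))
      (fun s => (s.a, s.b, s.x, s.y)) ?_
    intro s t h
    simp only [Prod.mk.injEq] at h
    exact Zorn.ext h.1 h.2.1 h.2.2.1 h.2.2.2
  have h2 : Finite (NormOne F) := Subtype.finite
  have h3 : Finite (Paige F) := Quotient.finite _
  exact not_finite_iff_infinite.2 inferInstance (Finite.of_equiv _ α.symm : Finite K)

/-! ### Autoparatopisms -/

theorem mem_iff (c : ZMod 3 → K) :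
    c ∈ LatinSquare (T := K) (op ζ) ↔ cellT N₀ (Z ζ c 0) (Z ζ c 1) (Z ζ c 2) := by
  have : (c ∈ LatinSquare (T := K) (op ζ)) ↔ op ζ (c 0) (c 1) = c 2 := eq_comm
  rw [this, op_iff]
  rfl

theorem mem_iff' (c : ZMod 3 → K) (i : ZMod 3) :
    c ∈ LatinSquare (T := K) (op ζ) ↔
      cellT N₀ (Z ζ c i) (Z ζ c (i + 1)) (Z ζ c (i + 1 + 1)) := by
  rw [mem_iff]
  fin_cases i
  · exact Iff.rfl
  · exact ⟨fun h => cellT_rot h, fun h => cellT_rot (cellT_rot h)⟩
  · exact ⟨fun h => cellT_rot (cellT_rot h), fun h => cellT_rot h⟩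

/-- An automorphism of the net gives an autoparatopism. -/
theorem exists_autoparatopism {s : ZMod 3} {h : Set (U K ×
    U K)} (ha : Auto N₀ s h) :
    ∃ p : (Fin 3 → K) → (Fin 3 → K), IsAutoparatopism (op ζ) p ∧
      ∀ (c : ZMod 3 → K) (i : ZMod 3), (Z ζ c i, Z ζ (p c) (i + s)) ∈ h := by
  have hθ : ∀ (i : ZMod 3) (a : K), ∃ b : K, ((ζ i a).1, (ζ (i + s) b).1) ∈ h := by
    intro i a
    obtain ⟨x', hx'⟩ := ha.total (ζ i a).2.1
    have hc := ha.col hx'
    rw [(ζ i a).2.2] at hc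
    exact ⟨(ζ (i + s)).symm ⟨x', ha.rng hx', hc⟩, by rw [Equiv.apply_symm_apply]; exact hx'⟩
  choose θ hθ using hθ
  have hinj : ∀ i, Function.Injective (θ i) := by
    intro i a b hab
    have h1 := hθ i a
    rw [hab] at h1
    exact (ζ i).injective (Subtype.ext (ha.inj h1 (hθ i b)))
  have hsurj : ∀ i, Function.Surjective (θ i) := by
    intro i b
    obtain ⟨x, hx⟩ := ha.surj (ζ (i + s) b).2.1
    have hc := ha.col hx
    rw [(ζ (i + s) b).2.2] at hc
    have hc' : x.1 = i := (add_right_cancel hc).symm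
    refine ⟨(ζ i).symm ⟨x, ha.dom hx, hc'⟩, ?_⟩
    have h1 := hθ i ((ζ i).symm ⟨x, ha.dom hx, hc'⟩)
    rw [Equiv.apply_symm_apply] at h1
    exact (ζ (i + s)).injective (Subtype.ext (ha.func h1 hx))
  let Θ : ZMod 3 → Equiv.Perm K := fun i => Equiv.ofBijective (θ i) ⟨hinj i, hsurj i⟩
  let p : (ZMod 3 → K) → (ZMod 3 → K) := fun c i => Θ (i - s) (c (i - s))
  have hp : ∀ (c : ZMod 3 → K) (i : ZMod 3), (Z ζ c i, Z ζ (p c) (i + s)) ∈ h := by
    intro c i
    have : p c (i + s) = θ i (c i) := by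
      change θ (i + s - s) (c (i + s - s)) = _
      rw [add_sub_cancel_right]
    unfold Z
    rw [this]
    exact hθ i (c i)
  refine ⟨p, ⟨⟨Θ, Equiv.subRight s, fun c i => rfl⟩, ?_⟩, hp⟩
  have hmem : ∀ c : ZMod 3 → K, p c ∈ LatinSquare (T := K) (op ζ) ↔
      c ∈ LatinSquare (T := K) (op ζ) := by
    intro c
    rw [mem_iff' ζ (p c) s, mem_iff ζ c]
    have e0 := hp c 0
    have e1 := hp c 1
    have e2 := hp c 2
    rw [show (0 : ZMod 3) + s = s by ring] at e0
    rw [show (1 : ZMod 3) + s = s + 1 by ring] at e1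
    rw [show (2 : ZMod 3) + s = s + 1 + 1 by ring] at e2
    exact ⟨fun hc => ha.bwd e0 e1 e2 hc, fun hc => ha.fwd e0 e1 e2 hc⟩
  ext d
  constructor
  · rintro ⟨c, hc, rfl⟩
    exact (hmem c).2 hc
  · intro hd
    have : ∃ c : ZMod 3 → K, p c = d := by
      refine ⟨fun i => (Θ i).symm (d (i + s)), ?_⟩
      funext i
      change Θ (i - s) ((Θ (i - s)).symm (d (i - s + s))) = d i
      rw [Equiv.apply_symm_apply, sub_add_cancel]
    obtain ⟨c, rfl⟩ := this
    exact ⟨c, (hmem c).1 hd, rfl⟩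

/-- The autoparatopism group of the quasigroup is primitive on the cells. -/
theorem op_primitive : PrimitiveOnCells (op ζ) := by
  constructor
  · intro c hc d hd
    have hc' := (mem_iff ζ c).1 hc
    have hd' := (mem_iff ζ d).1 hd
    obtain ⟨s, g, hg, h0, h1, h2⟩ := transitive hc' hd'
    obtain ⟨p, hp1, hp2⟩ := exists_autoparatopism ζ hg
    refine ⟨p, hp1, ?_⟩
    have hs : s = 0 := by
      have h3 := hg.col h0
      have h4 : (Z ζ d 0).1 = 0 := Z_col ζ d 0
      have h5 : (Z ζ c 0).1 = 0 := Z_col ζ c 0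
      have h6 : (0 : ZMod 3) = 0 + s := (h4.symm.trans h3).trans (congrArg (· + s) h5)
      simpa using h6.symm
    subst hs
    have e : ∀ i : ZMod 3, (Z ζ c i, Z ζ d i) ∈ g := by
      intro i
      fin_cases i
      · exact h0
      · exact h1
      · exact h2
    have e' : ∀ i : ZMod 3, p c i = d i := by
      intro i
      have e1 := hp2 c i
      rw [add_zero] at e1
      exact Z_inj ζ (hg.func e1 (e i))
    exact funext e'
  · intro r hr
    by_cases hbot : ∀ c d, r c d → c = d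
    · left
      ext c d
      exact ⟨fun h => hbot c d h, fun h => by
        change c = d at h
        subst h
        exact r.refl' c⟩
    right
    push Not at hbot
    obtain ⟨c₀, d₀, hcd, hne⟩ := hbot
    -- the relation on triples of points
    let mt : LatinSquare (T := K) (op ζ) → U K × U K ×
        U K → Prop := fun c t =>
      ∃ i : ZMod 3, t = (Z ζ c.1 i, Z ζ c.1 (i + 1), Z ζ c.1 (i + 1 + 1))
    have mt_uniq : ∀ {c d t}, mt c t → mt d t → c = d := by
      rintro c d t ⟨i, hi⟩ ⟨j, hj⟩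
      have hij := hi.symm.trans hj
      simp only [Prod.mk.injEq] at hij
      obtain ⟨e1, e2, e3⟩ := hij
      have hc : i = j :=
        (Z_col ζ c.1 i).symm.trans ((congrArg Prod.fst e1).trans (Z_col ζ d.1 j))
      subst hc
      have f1 := Z_inj ζ e1
      have f2 := Z_inj ζ e2
      have f3 := Z_inj ζ e3
      apply Subtype.ext
      funext k
      fin_cases i <;> fin_cases k <;> first | exact f1 | exact f2 | exact f3
    let E : U K × U K × U K →
        U K × U K × U K → Prop :=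
      fun t t' => ∃ c d, mt c t ∧ mt d t' ∧ r c d
    have three : ∀ i : ZMod 3, i + 1 + 1 + 1 = i := by decide
    have hE : InvRel N₀ E := by
      refine ⟨?_, ?_, ?_, ?_⟩
      · rintro t t' ⟨c, d, h1, h2, h3⟩
        exact ⟨d, c, h2, h1, r.symm' h3⟩
      · rintro t t' t'' ⟨c, d, h1, h2, h3⟩ ⟨c', d', h4, h5, h6⟩
        have := mt_uniq h2 h4
        subst this
        exact ⟨c, d', h1, h5, r.trans' h3 h6⟩
      · intro x y z hxyz
        -- the cell with the given points
        have hy := cellT_col hxyz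
        have hz := cellT_col (cellT_rot hxyz)
        have hex : ∃ c : ZMod 3 → K, Z ζ c x.1 = x ∧ Z ζ c (x.1 + 1) = y ∧
            Z ζ c (x.1 + 1 + 1) = z := by
          have hx' := cellT_mem hxyz
          have hy' := cellT_mem (cellT_rot hxyz)
          have hz' := cellT_mem (cellT_rot (cellT_rot hxyz))
          let w : ZMod 3 → U K := fun i =>
            if i = x.1 then x else if i = x.1 + 1 then y else z
          have hw : ∀ i, w i ∈ T N₀ ∧ (w i).1 = i := by
            intro i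
            simp only [w]
            split_ifs with h1 h2
            · exact ⟨hx', h1.symm⟩
            · exact ⟨hy', by rw [hy, h2]⟩
            · refine ⟨hz', ?_⟩
              rw [hz, hy]
              revert h1 h2
              generalize x.1 = a
              revert a i
              decide
          refine ⟨fun i => (ζ i).symm ⟨w i, hw i⟩, ?_, ?_, ?_⟩
          · unfold Z
            rw [Equiv.apply_symm_apply]
            simp [w]
          · unfold Z
            rw [Equiv.apply_symm_apply]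
            have : ∀ a : ZMod 3, a + 1 ≠ a := by decide
            simp [w]
          · unfold Z
            rw [Equiv.apply_symm_apply]
            have h1 : ∀ a : ZMod 3, a + 1 + 1 ≠ a := by decide
            have h2 : ∀ a : ZMod 3, a + 1 + 1 ≠ a + 1 := by decide
            simp only [w]
            rw [if_neg (h1 _), if_neg (h2 _)]
        obtain ⟨c, h1, h2, h3⟩ := hex
        have hc : c ∈ LatinSquare (T := K) (op ζ) := by
          rw [mem_iff' ζ c x.1, h1, h2, h3]
          exact hxyz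
        refine ⟨⟨c, hc⟩, ⟨c, hc⟩, ⟨x.1, ?_⟩, ⟨x.1 + 1, ?_⟩, r.refl' _⟩
        · simp only [h1, h2, h3]
        · rw [three]
          simp only [h1, h2, h3]
      · rintro s h hA x y z a b c x' y' z' a' b' c' gx gy gz ga gb gc hxyz habc
          ⟨C, D, ⟨i, hi⟩, ⟨j, hj⟩, hr'⟩
        obtain ⟨p, hp1, hp2⟩ := exists_autoparatopism ζ hA
        have hpC : p C.1 ∈ LatinSquare (T := K) (op ζ) :=
          (Set.ext_iff.1 hp1.2 (p C.1)).1 ⟨C.1, C.2, rfl⟩
        have hpD : p D.1 ∈ LatinSquare (T := K) (op ζ) :=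
          (Set.ext_iff.1 hp1.2 (p D.1)).1 ⟨D.1, D.2, rfl⟩
        refine ⟨⟨_, hpC⟩, ⟨_, hpD⟩, ⟨i + s, ?_⟩, ⟨j + s, ?_⟩, hr p hp1 C D _ _ rfl rfl hr'⟩
        · simp only [Prod.mk.injEq] at hi ⊢
          obtain ⟨rfl, rfl, rfl⟩ := hi
          refine ⟨hA.func gx (hp2 _ _), ?_, ?_⟩
          · rw [add_right_comm]; exact hA.func gy (hp2 _ _)
          · rw [add_right_comm i s 1, add_right_comm (i + 1) s 1]; exact hA.func gz (hp2 _ _)
        · simp only [Prod.mk.injEq] at hj ⊢
          obtain ⟨rfl, rfl, rfl⟩ := hj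
          refine ⟨hA.func ga (hp2 _ _), ?_, ?_⟩
          · rw [add_right_comm]; exact hA.func gb (hp2 _ _)
          · rw [add_right_comm j s 1, add_right_comm (j + 1) s 1]; exact hA.func gc (hp2 _ _)
    have hcell : ∀ c : LatinSquare (T := K) (op ζ),
        cellT N₀ (Z ζ c.1 0) (Z ζ c.1 1) (Z ζ c.1 2) := fun c => (mem_iff ζ c.1).1 c.2
    have mt0 : ∀ c : LatinSquare (T := K) (op ζ), mt c (Z ζ c.1 0, Z ζ c.1 1, Z ζ c.1 2) :=
      fun c => ⟨0, rfl⟩
    have hstart : E (Z ζ c₀.1 0, Z ζ c₀.1 1, Z ζ c₀.1 2) (Z ζ d₀.1 0, Z ζ d₀.1 1, Z ζ d₀.1 2) :=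
      ⟨c₀, d₀, mt0 _, mt0 _, hcd⟩
    have hne' : (Z ζ c₀.1 0, Z ζ c₀.1 1, Z ζ c₀.1 2) ≠ (Z ζ d₀.1 0, Z ζ d₀.1 1, Z ζ d₀.1 2) := by
      intro e
      have := mt0 c₀
      rw [e] at this
      exact hne (mt_uniq this (mt0 d₀))
    ext c d
    refine ⟨fun _ => trivial, fun _ => ?_⟩
    obtain ⟨c', d', h1, h2, h3⟩ := primitive hE (hcell c₀) (hcell d₀)
      ((Z_col ζ c₀.1 0).trans (Z_col ζ d₀.1 0).symm) hne' hstart (hcell c) (hcell d)
      ((Z_col ζ c.1 0).trans (Z_col ζ d.1 0).symm)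
    rw [mt_uniq (mt0 c) h1, mt_uniq (mt0 d) h2]
    exact h3

end final

/-! ### Subsquares -/

section sub

variable {K : Type u} [Infinite K] {k₀ : K} {L : Set (Fin 3 → K)} {hL : IsPartialLatin L}
  (ζ : ∀ i : ZMod 3, K ≃ {x : U K // x ∈ T (base k₀ hL) ∧ x.1 = i})

/-- The number of the point `x` of the partial Latin square. -/
noncomputable def en (i : Fin 3) (x : K) : K :=
  (ζ i).symm ⟨((i, (x, 0)) : U K), ⟨0, Nat.zero_le _⟩, rfl⟩

theorem en_inj (i : Fin 3) : Function.Injective (en ζ i) := by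
  intro x y h
  have h1 := (ζ i).symm.injective h
  exact congrArg (fun t : {x : U K // x ∈ T (base k₀ hL) ∧ x.1 = i} => t.1.2.1) h1

theorem en_mem {c : Fin 3 → K} (hc : c ∈ L) : (fun i => en ζ i (c i)) ∈ LatinSquare (op ζ) := by
  refine (mem_iff ζ _).2 ?_
  have hz : ∀ i : ZMod 3, Z ζ (fun i => en ζ i (c i)) i = ((i, (c i, 0)) : U K) := by
    intro i
    unfold Z en
    rw [Equiv.apply_symm_apply]
  have h0 : cellT (base k₀ hL) ((0, (c 0, 0)) : U K) (1, (c 1, 0)) (2, (c 2, 0)) :=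
    ⟨0, 0, fun i => (c i, 0), Or.inl ⟨c, hc, rfl⟩, rfl, rfl, rfl⟩
  have e0 := hz 0
  have e1 := hz 1
  have e2 := hz 2
  exact (congrArg₂ (fun x y => cellT (base k₀ hL) x y _) e0 e1).mpr
    ((congrArg (fun z => cellT (base k₀ hL) _ _ z) e2).mpr h0)

theorem base8_cell : ∀ t ∈ base8, cellT (base k₀ hL) ((0, (k₀, t 0 + 1)) : U K)
    (1, (k₀, t 1 + 1)) (2, (k₀, t 2 + 1)) :=
  fun t ht => ⟨0, 0, fun i => (k₀, t i + 1), Or.inr ⟨t, ht, rfl⟩, rfl, rfl, rfl⟩

theorem sub_of_sub {k : ℕ} (h : HasSubsquare L k) : HasSubsquare (LatinSquare (op ζ)) k := by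
  classical
  obtain ⟨A, hA, h⟩ := h
  refine ⟨fun i => (A i).image (en ζ i), fun i => ?_, ?_⟩
  · rw [Finset.card_image_of_injective _ (en_inj ζ i), hA]
  · intro i j hij a ha b hb
    obtain ⟨a', ha', rfl⟩ := Finset.mem_image.1 ha
    obtain ⟨b', hb', rfl⟩ := Finset.mem_image.1 hb
    obtain ⟨c, hc, h1, h2, h3⟩ := h i j hij a' ha' b' hb'
    refine ⟨_, en_mem ζ hc, ?_, ?_, fun l => Finset.mem_image_of_mem _ (h3 l)⟩
    · rw [h1]
    · rw [h2]

theorem idx (i l : ZMod 3) : l = i ∨ l = i + 1 ∨ l = i + 1 + 1 := by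
  revert i l
  decide

theorem idx2 (i j : ZMod 3) (h : i ≠ j) : j = i + 1 ∨ i = j + 1 := by
  revert i j
  decide

omit [Infinite K] in
/-- A square of the first net is a subsquare of the partial Latin square. -/
theorem sub_of_Sq {C : ZMod 3 → Set (U K)} (hC : Sq (base k₀ hL) C) {k : ℕ}
    (hfin : ∀ i, (C i).Finite) (hk : ∀ i, (C i).ncard = k) : HasSubsquare L k := by
  classical
  -- the cells of the square
  have hcell : ∀ {i : ZMod 3} {x y : U K}, x ∈ C i → y ∈ C (i + 1) → ∃ c ∈ DD k₀ L,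
      x = (i, c i) ∧ y = (i + 1, c (i + 1)) ∧ ((i + 1 + 1, c (i + 1 + 1)) : U K) ∈
        C (i + 1 + 1) := by
    intro i x y hx hy
    obtain ⟨z, hz, i', c, hc, rfl, rfl, rfl⟩ := hC.cell hx hy
    have hi : i' = i := hC.col hx
    subst hi
    exact ⟨c, hc, rfl, rfl, hz⟩
  have two := hC.two
  have ne : ∀ i, ∃ x, x ∈ C i := by
    intro i
    obtain ⟨x, hx, _⟩ := two i ((i, (k₀, 0)) : U K)
    exact ⟨x, hx⟩
  -- all points have level zero, or none
  have step : ∀ {i : ZMod 3} {x y : U K}, x ∈ C i → y ∈ C (i + 1) →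
      (x.2.2 = 0 ↔ y.2.2 = 0) := by
    intro i x y hx hy
    obtain ⟨c, hc | ⟨t, ht, rfl⟩, rfl, rfl, _⟩ := hcell hx hy
    · obtain ⟨d, hd, rfl⟩ := hc
      exact Iff.rfl
    · simp
  have lev : ∀ i, ∀ x ∈ C i, x.2.2 = 0 := by
    by_contra hcon
    push Not at hcon
    obtain ⟨i, x₀, hx₀, hne⟩ := hcon
    -- all points have positive level
    have pos : ∀ l, ∀ x ∈ C l, x.2.2 ≠ 0 := by
      have p1 : ∀ y ∈ C (i + 1), y.2.2 ≠ 0 := fun y hy h => hne ((step hx₀ hy).2 h)
      obtain ⟨y₁, hy₁⟩ := ne (i + 1)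
      have p2 : ∀ y ∈ C (i + 1 + 1), y.2.2 ≠ 0 := fun y hy h => p1 y₁ hy₁ ((step hy₁ hy).2 h)
      obtain ⟨y₂, hy₂⟩ := ne (i + 1 + 1)
      have p3 : ∀ y ∈ C (i + 1 + 1 + 1), y.2.2 ≠ 0 :=
        fun y hy h => p2 y₂ hy₂ ((step hy₂ hy).2 h)
      rw [three] at p3
      intro l
      rcases idx i l with rfl | rfl | rfl
      · exact p3
      · exact p1
      · exact p2
    have hcell8 : ∀ {i : ZMod 3} {x y : U K}, x ∈ C i → y ∈ C (i + 1) → ∃ t : ZMod 3 → ℕ,
        t ∈ base8 ∧ x = (i, (k₀, t i + 1)) ∧ y = (i + 1, (k₀, t (i + 1) + 1)) ∧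
        ((i + 1 + 1, (k₀, t (i + 1 + 1) + 1)) : U K) ∈ C (i + 1 + 1) := by
      intro i x y hx hy
      obtain ⟨c, hc | ⟨t, ht, rfl⟩, h1, h2, h3⟩ := hcell hx hy
      · obtain ⟨d, hd, rfl⟩ := hc
        exact absurd (by rw [h1]) (pos _ _ hx)
      · exact ⟨t, ht, h1, h2, h3⟩
    obtain ⟨x, hx⟩ := ne 0
    obtain ⟨x', hx', hxx⟩ := two 0 x
    obtain ⟨y, hy⟩ := ne 1
    obtain ⟨a, ha, a1, a2, a3⟩ := hcell8 (i := 0) hx hy
    obtain ⟨b, hb, b1, b2, b3⟩ := hcell8 (i := 0) hx' hy
    obtain ⟨c, hc, c1, c2, c3⟩ := hcell8 (i := 2) a3 hx'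
    obtain ⟨d, hd, d1, d2, d3⟩ := hcell8 (i := 2) b3 hx
    have lv : ∀ {p q : U K}, p = q → p.2.2 = q.2.2 := fun h => by rw [h]
    have e1 : y.2.2 = a 1 + 1 := lv a2
    have e2 : y.2.2 = b 1 + 1 := lv b2
    have e3 : x.2.2 = a 0 + 1 := lv a1
    have e4 : x'.2.2 = b 0 + 1 := lv b1
    have e5 : x'.2.2 = c 0 + 1 := lv c2
    have e6 : a 2 + 1 = c 2 + 1 := lv c1
    have e7 : x.2.2 = d 0 + 1 := lv d2
    have e8 : b 2 + 1 = d 2 + 1 := lv d1
    refine base8_no a ha b hb (by omega) ?_ c hc (by omega) (by omega) d hd (by omega) (by omega)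
    intro e
    apply hxx
    rw [a1, b1]
    exact congrArg (fun t : ℕ => ((0, (k₀, t + 1)) : U K)) e.symm
  -- the cells belong to the partial Latin square
  have hcellL : ∀ {i : ZMod 3} {x y : U K}, x ∈ C i → y ∈ C (i + 1) → ∃ d : ZMod 3 → K,
      d ∈ L ∧ x = (i, (d i, 0)) ∧ y = (i + 1, (d (i + 1), 0)) ∧
      ((i + 1 + 1, (d (i + 1 + 1), 0)) : U K) ∈ C (i + 1 + 1) := by
    intro i x y hx hy
    obtain ⟨c, hc | ⟨t, ht, rfl⟩, h1, h2, h3⟩ := hcell hx hy
    · obtain ⟨d, hd, rfl⟩ := hc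
      exact ⟨d, hd, h1, h2, h3⟩
    · have := lev _ _ hx
      rw [h1] at this
      exact absurd this (Nat.succ_ne_zero _)
  have form : ∀ {i : ZMod 3} {x : U K}, x ∈ C i → x = (i, (x.2.1, 0)) := by
    intro i x hx
    have h1 := hC.col hx
    have h2 := lev _ _ hx
    obtain ⟨p, q, r⟩ := x
    simp only at h1 h2
    rw [h1, h2]
  let A : Fin 3 → Finset K := fun i => (hfin i).toFinset.image (fun x => x.2.1)
  have memA : ∀ {i : ZMod 3} {a : K}, a ∈ A i ↔ ((i, (a, 0)) : U K) ∈ C i := by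
    intro i a
    simp only [A, Finset.mem_image, Set.Finite.mem_toFinset]
    constructor
    · rintro ⟨x, hx, rfl⟩
      rw [← form hx]
      exact hx
    · intro h
      exact ⟨_, h, rfl⟩
  refine ⟨A, ?_, ?_⟩
  · intro i
    rw [← hk i, Set.ncard_eq_toFinset_card _ (hfin i)]
    apply Finset.card_image_of_injOn
    intro x hx y hy hxy
    have hx' : x ∈ C i := by simpa using hx
    have hy' : y ∈ C i := by simpa using hy
    rw [form hx', form hy']
    have : x.2.1 = y.2.1 := hxy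
    rw [this]
  · intro i j hij a ha b hb
    rcases idx2 i j hij with rfl | rfl
    · obtain ⟨d, hd, h1, h2, h3⟩ := hcellL (memA.1 ha) (memA.1 hb)
      refine ⟨d, hd, ?_, ?_, ?_⟩
      · exact (congrArg (fun p : U K => p.2.1) h1).symm
      · exact (congrArg (fun p : U K => p.2.1) h2).symm
      · intro l
        rcases idx i l with rfl | rfl | rfl
        · refine memA.2 ?_
          rw [← h1]
          exact memA.1 ha
        · refine memA.2 ?_
          rw [← h2]
          exact memA.1 hb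
        · exact memA.2 h3
    · obtain ⟨d, hd, h1, h2, h3⟩ := hcellL (memA.1 hb) (memA.1 ha)
      refine ⟨d, hd, ?_, ?_, ?_⟩
      · exact (congrArg (fun p : U K => p.2.1) h2).symm
      · exact (congrArg (fun p : U K => p.2.1) h1).symm
      · intro l
        rcases idx j l with rfl | rfl | rfl
        · refine memA.2 ?_
          rw [← h1]
          exact memA.1 hb
        · refine memA.2 ?_
          rw [← h2]
          exact memA.1 ha
        · exact memA.2 h3

theorem sub_only {k : ℕ} (hk : 2 ≤ k) (h : HasSubsquare (LatinSquare (op ζ)) k) :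
    HasSubsquare L k := by
  classical
  obtain ⟨A, hA, h⟩ := h
  let B : ZMod 3 → Set (U K) := fun i => (fun a => (ζ i a).1) '' (A i : Set K)
  have inj : ∀ i : ZMod 3, Function.Injective (fun a => (ζ i a).1) :=
    fun i => Subtype.val_injective.comp (ζ i).injective
  have hBfin : ∀ i, (B i).Finite := fun i => (Finset.finite_toSet (A i)).image _
  have hBcard : ∀ i, (B i).ncard = k := by
    intro i
    rw [Set.ncard_image_of_injective _ (inj i), Set.ncard_coe_finset]
    exact hA i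
  have hBcol : ∀ {i x}, x ∈ B i → x.1 = i := by
    rintro i x ⟨a, _, rfl⟩
    exact (ζ i a).2.2
  obtain ⟨n, hn⟩ := exists_stage_Sq (N₀ := base k₀ hL) (B := B) hBfin
    (by
      rintro i x ⟨a, _, rfl⟩
      exact (ζ i a).2.1) hBcol
    (by
      intro i x
      by_contra hcon
      push Not at hcon
      have : (B i).ncard ≤ 1 := by
        rw [Set.ncard_le_one (hBfin i)]
        intro a ha b hb
        rw [hcon a ha, hcon b hb]
      rw [hBcard] at this
      omega)
    (by
      rintro i x y ⟨a, ha, rfl⟩ ⟨b, hb, rfl⟩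
      obtain ⟨c, hc, h1, h2, h3⟩ : ∃ c : ZMod 3 → K, c ∈ LatinSquare (T := K) (op ζ) ∧ c i = a ∧
          c (i + 1) = b ∧ ∀ l, c l ∈ A l := h i (i + (1 : ZMod 3)) (n1 i) a ha b hb
      have hc' := (mem_iff' ζ c i).1 hc
      refine ⟨Z ζ c (i + 1 + 1), ⟨c (i + 1 + 1), h3 _, rfl⟩, ?_⟩
      have e1 : Z ζ c i = (ζ i a).1 := by
        unfold Z
        rw [h1]
      have e2 : Z ζ c (i + 1) = (ζ (i + 1) b).1 := by
        unfold Z
        rw [h2]
      rw [e1, e2] at hc'
      exact hc')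
  obtain ⟨s, g, C, hC, g1, g2, g3, g4⟩ := chain_Sq n hn
  have hcard : ∀ i, (C i).ncard = k := by
    intro i
    rw [← hBcard (i + s)]
    refine Set.ncard_congr (fun x hx => Classical.choose (g3 i x hx)) ?_ ?_ ?_
    · intro x hx
      exact (Classical.choose_spec (g3 i x hx)).1
    · intro x y hx hy hxy
      have e1 := (Classical.choose_spec (g3 i x hx)).2
      have e2 := (Classical.choose_spec (g3 i y hy)).2
      rw [hxy] at e1
      exact g2 e1 e2
    · intro y hy
      obtain ⟨x, hx, hxy⟩ := g4 i y hy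
      exact ⟨x, hx, g1 (Classical.choose_spec (g3 i x hx)).2 hxy⟩
  refine sub_of_Sq hC (fun i => Set.finite_of_ncard_pos (by rw [hcard]; omega)) hcard

end sub

/-! ### A family of partial Latin squares -/

section family

open scoped Pointwise

variable {K : Type u}

/-- The disjoint union of the Cayley tables of the cyclic groups of the orders in `S`. -/
def LS (ι : ℕ → K) (S : Set ℕ) : Set (Fin 3 → K) :=
  {c | ∃ p ∈ S, ∃ a b : ℕ, a < p ∧ b < p ∧
    c = ![ι (Nat.pair p a), ι (Nat.pair p b), ι (Nat.pair p ((a + b) % p))]}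

theorem mod_cancel {p a b b' : ℕ} (hb : b < p) (hb' : b' < p)
    (h : (a + b) % p = (a + b') % p) : b = b' := by
  have h1 : b ≡ b' [MOD p] := Nat.ModEq.add_left_cancel' a h
  have h2 : b % p = b' % p := h1
  rwa [Nat.mod_eq_of_lt hb, Nat.mod_eq_of_lt hb'] at h2

theorem LS_PLS {ι : ℕ → K} (hι : Function.Injective ι) (S : Set ℕ) : IsPartialLatin (LS ι S) := by
  rintro _ ⟨p, hp, a, b, ha, hb, rfl⟩ _ ⟨q, hq, a', b', ha', hb', rfl⟩ i j hij h1 h2
  have pr : ∀ {x y z w : ℕ}, ι (Nat.pair x y) = ι (Nat.pair z w) → x = z ∧ y = w := by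
    intro x y z w h
    exact Nat.pair_eq_pair.1 (hι h)
  have key : p = q ∧ a = a' ∧ b = b' := by
    have m1 : ∀ {p q a b a' b' : ℕ}, b < p → b' < q → p = q ∧ a = a' →
        p = q ∧ (a + b) % p = (a' + b') % q → p = q ∧ a = a' ∧ b = b' := by
      rintro p q a b a' b' hb hb' ⟨rfl, rfl⟩ ⟨_, h⟩
      exact ⟨rfl, rfl, mod_cancel hb hb' h⟩
    have m2 : ∀ {p q a b a' b' : ℕ}, a < p → a' < q → p = q ∧ b = b' →
        p = q ∧ (a + b) % p = (a' + b') % q → p = q ∧ a = a' ∧ b = b' := by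
      rintro p q a b a' b' hb hb' ⟨rfl, rfl⟩ ⟨_, h⟩
      rw [add_comm a, add_comm a'] at h
      exact ⟨rfl, mod_cancel hb hb' h, rfl⟩
    fin_cases i <;> fin_cases j
    · exact absurd rfl hij
    · exact ⟨(pr h1).1, (pr h1).2, (pr h2).2⟩
    · exact m1 hb hb' (pr h1) (pr h2)
    · exact ⟨(pr h1).1, (pr h2).2, (pr h1).2⟩
    · exact absurd rfl hij
    · exact m2 ha ha' (pr h1) (pr h2)
    · exact m1 hb hb' (pr h2) (pr h1)
    · exact m2 ha ha' (pr h2) (pr h1)
    · exact absurd rfl hij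
  obtain ⟨rfl, rfl, rfl⟩ := key
  rfl

theorem LS_sub {ι : ℕ → K} (hι : Function.Injective ι) {S : Set ℕ} {p : ℕ} (hp : p ∈ S)
    (h0 : 0 < p) : HasSubsquare (LS ι S) p := by
  classical
  have hinj : Function.Injective (fun a => ι (Nat.pair p a)) := by
    intro a b h
    exact (Nat.pair_eq_pair.1 (hι h)).2
  refine ⟨fun _ => (Finset.range p).image (fun a => ι (Nat.pair p a)), fun i => ?_, ?_⟩
  · rw [Finset.card_image_of_injective _ hinj, Finset.card_range]
  · intro i j hij x hx y hy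
    obtain ⟨a, ha, rfl⟩ := Finset.mem_image.1 hx
    obtain ⟨b, hb, rfl⟩ := Finset.mem_image.1 hy
    rw [Finset.mem_range] at ha hb
    -- the cell with the given rows and columns
    have mk : ∀ a b : ℕ, a < p → b < p → ∃ c ∈ LS ι S, c 0 = ι (Nat.pair p a) ∧
        c 1 = ι (Nat.pair p b) ∧ c 2 = ι (Nat.pair p ((a + b) % p)) ∧
        ∀ l, c l ∈ (Finset.range p).image (fun a => ι (Nat.pair p a)) := by
      intro a b ha hb
      refine ⟨_, ⟨p, hp, a, b, ha, hb, rfl⟩, rfl, rfl, rfl, ?_⟩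
      intro l
      fin_cases l
      · exact Finset.mem_image.2 ⟨a, Finset.mem_range.2 ha, rfl⟩
      · exact Finset.mem_image.2 ⟨b, Finset.mem_range.2 hb, rfl⟩
      · exact Finset.mem_image.2 ⟨_, Finset.mem_range.2 (Nat.mod_lt _ h0), rfl⟩
    -- differences
    have df : ∀ a z : ℕ, a < p → z < p → ∃ b, b < p ∧ (a + b) % p = z := by
      intro a z ha hz
      refine ⟨(p - a + z) % p, Nat.mod_lt _ h0, ?_⟩
      rw [Nat.add_mod_mod, show a + (p - a + z) = z + p by omega, Nat.add_mod_right,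
        Nat.mod_eq_of_lt hz]
    fin_cases i <;> fin_cases j
    · exact absurd rfl hij
    · obtain ⟨c, hc, h1, h2, h3, h4⟩ := mk a b ha hb
      exact ⟨c, hc, h1, h2, h4⟩
    · obtain ⟨d, hd, hd'⟩ := df a b ha hb
      obtain ⟨c, hc, h1, h2, h3, h4⟩ := mk a d ha hd
      exact ⟨c, hc, h1, by rw [hd'] at h3; exact h3, h4⟩
    · obtain ⟨c, hc, h1, h2, h3, h4⟩ := mk b a hb ha
      exact ⟨c, hc, h2, h1, h4⟩
    · exact absurd rfl hij
    · obtain ⟨d, hd, hd'⟩ := df a b ha hb
      obtain ⟨c, hc, h1, h2, h3, h4⟩ := mk d a hd ha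
      exact ⟨c, hc, h2, by rw [add_comm d, hd'] at h3; exact h3, h4⟩
    · obtain ⟨d, hd, hd'⟩ := df b a hb ha
      obtain ⟨c, hc, h1, h2, h3, h4⟩ := mk b d hb hd
      exact ⟨c, hc, by rw [hd'] at h3; exact h3, h1, h4⟩
    · obtain ⟨d, hd, hd'⟩ := df b a hb ha
      obtain ⟨c, hc, h1, h2, h3, h4⟩ := mk d b hd hb
      exact ⟨c, hc, by rw [add_comm d, hd'] at h3; exact h3, h2, h4⟩
    · exact absurd rfl hij

theorem LS_only {ι : ℕ → K} (hι : Function.Injective ι) {S : Set ℕ} (hS : ∀ p ∈ S, p.Prime)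
    {k : ℕ} (hk : 2 ≤ k) (h : HasSubsquare (LS ι S) k) : k ∈ S := by
  classical
  obtain ⟨A, hA, h⟩ := h
  have ne : ∀ i, (A i).Nonempty := fun i => Finset.card_pos.1 (by rw [hA]; omega)
  have pr : ∀ {x y z w : ℕ}, ι (Nat.pair x y) = ι (Nat.pair z w) → x = z ∧ y = w := by
    intro x y z w h
    exact Nat.pair_eq_pair.1 (hι h)
  obtain ⟨a₀, ha₀⟩ := ne 0
  obtain ⟨b₀, hb₀⟩ := ne 1
  obtain ⟨_, ⟨p, hp, α, β, hα, hβ, rfl⟩, h1, h2, _⟩ := h 0 1 (by decide) a₀ ha₀ b₀ hb₀
  replace h1 : ι (Nat.pair p α) = a₀ := h1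
  replace h2 : ι (Nat.pair p β) = b₀ := h2
  have hpp := hS p hp
  have : Fact p.Prime := ⟨hpp⟩
  have : NeZero p := ⟨hpp.ne_zero⟩
  -- rows and columns
  have row : ∀ a ∈ A 0, ∃ x, x < p ∧ a = ι (Nat.pair p x) := by
    intro a ha
    obtain ⟨_, ⟨q, hq, x, y, hx, hy, rfl⟩, k1, k2, _⟩ := h 0 1 (by decide) a ha b₀ hb₀
    replace k1 : ι (Nat.pair q x) = a := k1
    replace k2 : ι (Nat.pair q y) = b₀ := k2
    obtain ⟨rfl, _⟩ := pr (k2.trans h2.symm)
    exact ⟨x, hx, k1.symm⟩
  have column : ∀ b ∈ A 1, ∃ x, x < p ∧ b = ι (Nat.pair p x) := by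
    intro b hb
    obtain ⟨_, ⟨q, hq, x, y, hx, hy, rfl⟩, k1, k2, _⟩ := h 0 1 (by decide) a₀ ha₀ b hb
    replace k1 : ι (Nat.pair q x) = a₀ := k1
    replace k2 : ι (Nat.pair q y) = b := k2
    obtain ⟨rfl, _⟩ := pr (k1.trans h1.symm)
    exact ⟨y, hy, k2.symm⟩
  let j : ZMod p → K := fun x => ι (Nat.pair p x.val)
  have hj : Function.Injective j := by
    intro x y hxy
    exact ZMod.val_injective p (pr hxy).2
  have hjx : ∀ x, x < p → ι (Nat.pair p x) = j (x : ZMod p) := by
    intro x hx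
    change _ = ι (Nat.pair p ((x : ZMod p)).val)
    rw [ZMod.val_natCast, Nat.mod_eq_of_lt hx]
  let X : Fin 3 → Finset (ZMod p) := fun i => Finset.univ.filter (fun x => j x ∈ A i)
  have hX0 : (X 0).card = k := by
    rw [← hA 0, ← Finset.card_image_of_injective (X 0) hj]
    congr 1
    ext a
    simp only [Finset.mem_image, X, Finset.mem_filter, Finset.mem_univ, true_and]
    constructor
    · rintro ⟨x, hx, rfl⟩
      exact hx
    · intro ha
      obtain ⟨x, hx, rfl⟩ := row a ha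
      rw [hjx x hx] at ha ⊢
      exact ⟨_, ha, rfl⟩
  have hX1 : (X 1).card = k := by
    rw [← hA 1, ← Finset.card_image_of_injective (X 1) hj]
    congr 1
    ext a
    simp only [Finset.mem_image, X, Finset.mem_filter, Finset.mem_univ, true_and]
    constructor
    · rintro ⟨x, hx, rfl⟩
      exact hx
    · intro ha
      obtain ⟨x, hx, rfl⟩ := column a ha
      rw [hjx x hx] at ha ⊢
      exact ⟨_, ha, rfl⟩
  have hX2 : (X 2).card ≤ k := by
    rw [← hA 2, ← Finset.card_image_of_injective (X 2) hj]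
    apply Finset.card_le_card
    intro a ha
    simp only [Finset.mem_image, X, Finset.mem_filter, Finset.mem_univ, true_and] at ha
    obtain ⟨x, hx, rfl⟩ := ha
    exact hx
  have hadd : X 0 + X 1 ⊆ X 2 := by
    intro w hw
    obtain ⟨x, hx, y, hy, rfl⟩ := Finset.mem_add.1 hw
    simp only [X, Finset.mem_filter, Finset.mem_univ, true_and] at hx hy ⊢
    obtain ⟨_, ⟨q, hq, a, b, ha, hb, rfl⟩, k1, k2, k3⟩ := h 0 1 (by decide) _ hx _ hy
    replace k1 : ι (Nat.pair q a) = ι (Nat.pair p x.val) := k1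
    replace k2 : ι (Nat.pair q b) = ι (Nat.pair p y.val) := k2
    obtain ⟨rfl, rfl⟩ := pr k1
    obtain ⟨_, rfl⟩ := pr k2
    have k4 := k3 2
    change ι (Nat.pair q ((x.val + y.val) % q)) ∈ A 2 at k4
    change ι (Nat.pair q (x + y).val) ∈ A 2
    rw [ZMod.val_add]
    exact k4
  have hcd := ZMod.cauchy_davenport hpp (s := X 0) (t := X 1)
    (Finset.card_pos.1 (by rw [hX0]; omega)) (Finset.card_pos.1 (by rw [hX1]; omega))
  have h5 : (X 0 + X 1).card ≤ k := (Finset.card_le_card hadd).trans hX2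
  have h6 : k ≤ p := by
    have h9 := Finset.card_le_univ (X 0)
    rw [hX0, ZMod.card p] at h9
    exact h9
  rw [hX0, hX1] at hcd
  have h7 : p ≤ k := by
    rcases min_le_iff.1 (hcd.trans h5) with h8 | h8
    · exact h8
    · omega
  have h8 : k = p := le_antisymm h6 h7
  rw [h8]
  exact hp

end family

/-! ### Paratopic operations -/

theorem sub_paratopic {T : Type*} {m n : T → T → T} (h : Paratopic m n) {k : ℕ}
    (hm : HasSubsquare (LatinSquare m) k) : HasSubsquare (LatinSquare n) k := by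
  classical
  obtain ⟨p, ⟨θ, σ, hp⟩, himg⟩ := h
  obtain ⟨A, hA, h⟩ := hm
  refine ⟨fun i => (A (σ i)).image (θ (σ i)), fun i => ?_, ?_⟩
  · rw [Finset.card_image_of_injective _ (θ (σ i)).injective, hA]
  · intro i j hij a ha b hb
    obtain ⟨a', ha', rfl⟩ := Finset.mem_image.1 ha
    obtain ⟨b', hb', rfl⟩ := Finset.mem_image.1 hb
    obtain ⟨c, hc, h1, h2, h3⟩ := h (σ i) (σ j) (fun e => hij (σ.injective e)) a' ha' b' hb'
    refine ⟨p c, ?_, ?_, ?_, fun l => ?_⟩
    · rw [← himg]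
      exact ⟨c, hc, rfl⟩
    · rw [hp, h1]
    · rw [hp, h2]
    · rw [hp]
      exact Finset.mem_image_of_mem _ (h3 _)

theorem paratopic_symm {T : Type*} {m n : T → T → T} (h : Paratopic m n) : Paratopic n m := by
  obtain ⟨p, ⟨θ, σ, hp⟩, himg⟩ := h
  refine ⟨fun d i => (θ i).symm (d (σ.symm i)), ⟨fun j => (θ (σ j)).symm, σ.symm, ?_⟩, ?_⟩
  · intro c i
    simp
  · have hinv : ∀ c, (fun i => (θ i).symm (p c (σ.symm i))) = c := by
      intro c
      funext i
      rw [hp]
      simp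
    ext c
    constructor
    · rintro ⟨d, hd, rfl⟩
      rw [← himg] at hd
      obtain ⟨c, hc, rfl⟩ := hd
      have h' : (fun i => (θ i).symm (p c (σ.symm i))) ∈ LatinSquare m := by
        rw [hinv c]
        exact hc
      exact h'
    · intro hc
      refine ⟨p c, ?_, hinv c⟩
      rw [← himg]
      exact ⟨c, hc, rfl⟩

/-- The properties of the quasigroups. -/
theorem exists_op (K : Type u) [Infinite K] (L : Set (Fin 3 → K)) (hL : IsPartialLatin L) :
    ∃ m : K → K → K, IsQuasigroup m ∧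
      (∀ (M : Type v) (n : M → M → M), IsMoufangLoop n → ¬ Isotopic m n) ∧
      PrimitiveOnCells m ∧
      (∃ e : Fin 3 → K → K, (∀ i, Function.Injective (e i)) ∧
        ∀ c ∈ L, (fun i => e i (c i)) ∈ LatinSquare m) ∧
      ∀ k, 2 ≤ k → (HasSubsquare (LatinSquare m) k ↔ HasSubsquare L k) := by
  obtain ⟨k₀⟩ := (inferInstance : Nonempty K)
  obtain ⟨ζ⟩ := exists_zeta (N₀ := base k₀ hL) (fun i x => Nat.zero_le _)
  exact ⟨op ζ, op_quasigroup ζ, fun M n h => not_isotopic_moufang ζ k₀ base8_cell h,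
    op_primitive ζ, ⟨en ζ, en_inj ζ, fun c hc => en_mem ζ hc⟩,
    fun k hk => ⟨sub_only ζ hk, sub_of_sub ζ⟩⟩

/-- Every partial Latin square on an infinite type `K` embeds in the Latin square of a quasigroup
operation on `K` that is isotopic to no group, to no Paige loop and to no Moufang loop, whose
autoparatopism group acts primitively on the cells, and whose finite subsquares of order at least
two have the same orders as those of the partial Latin square. Moreover there is a family of such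
operations on `K`, indexed by the sets of prime numbers, such that operations with different
indices are not paratopic. -/
theorem result (K : Type u) [Infinite K] :
    (∀ L : Set (Fin 3 → K), IsPartialLatin L → ∃ m : K → K → K, IsQuasigroup m ∧
      (∀ (G : Type v) [Group G], ¬ Isotopic m (fun x y : G => x * y)) ∧
      (∀ (F : Type v) [Field F] [Finite F], ¬ Isotopic m (paigeMul F)) ∧
      (∀ (M : Type v) (n : M → M → M), IsMoufangLoop n → ¬ Isotopic m n) ∧
      PrimitiveOnCells m ∧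
      (∃ e : Fin 3 → K → K, (∀ i, Function.Injective (e i)) ∧
        ∀ c ∈ L, (fun i => e i (c i)) ∈ LatinSquare m) ∧
      ∀ k, 2 ≤ k → (HasSubsquare (LatinSquare m) k ↔ HasSubsquare L k)) ∧
    ∃ m : Set {p : ℕ // p.Prime} → K → K → K,
      (∀ S, IsQuasigroup (m S) ∧
        (∀ (M : Type v) (n : M → M → M), IsMoufangLoop n → ¬ Isotopic (m S) n) ∧
        PrimitiveOnCells (m S) ∧
        ∀ k, 2 ≤ k → (HasSubsquare (LatinSquare (m S)) k ↔ ∃ p ∈ S, (p : ℕ) = k)) ∧
      ∀ S S', Paratopic (m S) (m S') → S = S' := by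
  constructor
  · intro L hL
    obtain ⟨m, h1, h2, h3, h4, h5⟩ := exists_op.{u, v} K L hL
    exact ⟨m, h1, fun G _ => h2 G _ group_moufang, fun F _ _ => not_isotopic_paige, h2, h3, h4, h5⟩
  · have hι := (Infinite.natEmbedding K).injective
    have hex := fun S : Set {p : ℕ // p.Prime} => exists_op.{u, v} K
      (LS (Infinite.natEmbedding K) (Subtype.val '' S)) (LS_PLS hι _)
    choose m h1 h2 h3 h4 h5 using hex
    have h6 : ∀ S, ∀ k, 2 ≤ k → (HasSubsquare (LatinSquare (m S)) k ↔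
        ∃ p ∈ S, (p : ℕ) = k) := by
      intro S k hk
      rw [h5 S k hk]
      constructor
      · intro h
        obtain ⟨p, hp, rfl⟩ := LS_only hι (by rintro _ ⟨p, _, rfl⟩; exact p.2) hk h
        exact ⟨p, hp, rfl⟩
      · rintro ⟨p, hp, rfl⟩
        exact LS_sub hι ⟨p, hp, rfl⟩ p.2.pos
    refine ⟨m, fun S => ⟨h1 S, h2 S, h3 S, h6 S⟩, ?_⟩
    have key : ∀ S S', Paratopic (m S) (m S') → S ⊆ S' := by
      intro S S' h p hp
      obtain ⟨q, hq, hqp⟩ := (h6 S' p p.2.two_le).1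
        (sub_paratopic h ((h6 S p p.2.two_le).2 ⟨p, hp, rfl⟩))
      rw [Subtype.ext hqp] at hq
      exact hq
    intro S S' h
    exact Set.Subset.antisymm (key S S' h) (key S' S (paratopic_symm h))

end Pool.Agent.Results.MP_b62fd5_al.UniversalPrimitive
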